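import Mathlib
import Pool.Agent.Lib.H35V.Iso
import Pool.Agent.Lib.SSW.DD

/-! # H35W: the relative theorem without conditions on the ramification: structures -/

open NumberField IsDedekindDomain WeierstrassCurve

namespace H35W

open H55P (IQ UnrP PExt)
open H55K H55K.TQ
open H13R (NoRel LUnitG)
open H55G (OkM)
open H35U (NT)

/-- FM and FK are the fields generated by F and M, F and K in the algebraic closure of F. FM is contained in FK, FK is contained in a Galois
extension L of FM of degree a power of p; at the primes of FM which divide the discriminant of W and at which W has good reduction over FM,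
p does not divide the number of points of the reduction of a minimal equation (OkM). There is no condition on the ramification. -/
structure Tower (F : Type) [Field F] [NumberField F] (p : ℕ) (W : WeierstrassCurve ℤ) (M K : Type) [Field M] [NumberField M] [Field K]
    [NumberField K] (ιM : M →ₐ[ℚ] AlgebraicClosure F) (ιK : K →ₐ[ℚ] AlgebraicClosure F) : Prop where
  sub : KG F M ιM ≤ KG F K ιK
  ext : ∃ (L : IntermediateField F (AlgebraicClosure F)) (_ : NumberField L), PExt p (KG F M ιM) L ∧ KG F K ιK ≤ L
  ok : OkM p (W⁄(𝓞 F)) (KG F M ιM)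

/-- The condition on the ramification of K/M. No prime v of M which does not divide the discriminant of W and with p | #W(k_v) is ramified in K
(primes v above p are included); if p is inert in F then at every prime Q of K above p, with ramification index e over M, the exact power of Q
which divides the different of K over M is Q^(2(e - 1)). -/
structure Cond (F : Type) [Field F] [NumberField F] (p : ℕ) (W : WeierstrassCurve ℤ) (M K : IntermediateField F (AlgebraicClosure F))
    [NumberField M] [NumberField K] : Prop where
  rel : NoRel p (W⁄(𝓞 F)) M K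
  dif : (Ideal.span {(p : 𝓞 F)}).IsPrime → SSW.D2F p M K

/-- The conclusions over K and M. NT: no point of order p over M. -/
structure Over (F : Type) [Field F] [NumberField F] (p : ℕ) (W : WeierstrassCurve ℤ) (M K : Type) [Field M] [NumberField M] [Field K]
    [NumberField K] (ιM : M →ₐ[ℚ] AlgebraicClosure F) (ιK : K →ₐ[ℚ] AlgebraicClosure F) : Prop where
  sel : H55P.SelTriv (W⁄K) p ↔ H55P.SelTriv (W⁄M) p ∧ Cond F p W (KG F M ιM) (KG F K ιK)
  bsd : BSDPG p W K ↔ BSDPG p W M ∧ Cond F p W (KG F M ιM) (KG F K ιK)
  selnon : ¬ Cond F p W (KG F M ιM) (KG F K ιK) → H13Z.SelNonT (W⁄K) p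
  int : NT p W M → AnIntG p W K
  lval : NT p W M → (LUnitG p W K ↔ LUnitG p W M ∧ Cond F p W (KG F M ιM) (KG F K ιK))
  annon : NT p W M → ¬ Cond F p W (KG F M ιM) (KG F K ιK) → AnNonG p W K
  nt : UnrP p (KG F M ιM) ∨ H55P.SelTriv (W⁄M) p → NT p W M

/-- FK is contained in a Galois extension L of F of degree a power of p. -/
def TowerA (F : Type) [Field F] [NumberField F] (p : ℕ) (K : Type) [Field K] [NumberField K] (ιK : K →ₐ[ℚ] AlgebraicClosure F) : Prop :=
  ∃ (L : IntermediateField F (AlgebraicClosure F)) (_ : NumberField L), PExt p ⊥ L ∧ KG F K ιK ≤ L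

/-- The conclusions over K, base field ℚ. CondA: the condition on the ramification of FK over F = F·ℚ. -/
structure OverA (F : Type) [Field F] [NumberField F] (p : ℕ) (W : WeierstrassCurve ℤ) (K : Type) [Field K] [NumberField K]
    (ιQ : ℚ →ₐ[ℚ] AlgebraicClosure F) (ιK : K →ₐ[ℚ] AlgebraicClosure F) : Prop where
  int : AnIntG p W K
  crit : AnUnitG p W K ↔ AnUnitG p W ℚ ∧ Cond F p W (KG F ℚ ιQ) (KG F K ιK)
  bsd : AnUnitG p W K → BSDPG p W K
  non : ¬ Cond F p W (KG F ℚ ιQ) (KG F K ιK) → AnNonG p W K ∧ H13Z.SelNonT (W⁄K) p

end H35W
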