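import Mathlib
import Pool.Agent.Lib.H35W.D

/-! # H35W: transport of the conclusions to isogenous curves -/

open NumberField IsDedekindDomain WeierstrassCurve

namespace H35W

open H55P (IQ embF eF LF Per IsHecke Pt ac Inert Dec Nm UnitP UnrP PExt)
open H55K H55K.TQ
open H13R (NoRel LUnitG i1_norel i1_same i1_lunit i1_sel)
open H28I (TW Same tw_prime iso6_symm selnon_iso same_int same_non sha_iso pts_iso a0_disc)
open H35U (NT nt_same)
open H55G (OkM lfun_tw okm_tw)
open H35V (bsd_tw)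

variable {F : Type} [Field F] [NumberField F] [IQ F] {W W' : WeierstrassCurve ℤ} {Om : ℂ} {m : Ideal (𝓞 F)}
    {ψ : Ideal (𝓞 F) →*₀ 𝓞 F} {kap : ℤ} {e t u lam : ℚ} {p : ℕ}

theorem cond_tw (h : TW F W W' Om m ψ kap e t u lam) (M K : IntermediateField F (AlgebraicClosure F)) [NumberField M] [NumberField K] :
    Cond F p W' M K ↔ Cond F p W M K :=
  ⟨fun hc => ⟨(i1_norel h M K).1 hc.rel, hc.dif⟩, fun hc => ⟨(i1_norel h M K).2 hc.rel, hc.dif⟩⟩

/-- The conclusions for isogenous curves. -/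
theorem over_tw (h : TW F W W' Om m ψ kap e t u lam) (hp' : PrimeH F (W'⁄(𝓞 F)) p)
    (M K : Type) [Field M] [NumberField M] [Field K] [NumberField K] (ιM : M →ₐ[ℚ] AlgebraicClosure F)
    (ιK : K →ₐ[ℚ] AlgebraicClosure F) (hO : Over F p W M K ιM ιK) : Over F p W' M K ιM ιK := by
  classical
  have hp := (tw_prime h).1 hp'
  have hSM := i1_same h hp M (lfun_tw h M)
  have hSK := i1_same h hp K (lfun_tw h K)
  refine ⟨?_, ?_, fun hN => ?_, fun hT => ?_, fun hT => ?_, fun hT hN => ?_, fun hT => ?_⟩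
  · rw [cond_tw h, i1_sel hp.prime hp.five hSK, i1_sel hp.prime hp.five hSM]
    exact hO.sel
  · rw [cond_tw h, bsd_tw h hp' K ιK, bsd_tw h hp' M ιM]
    exact hO.bsd
  · rw [cond_tw h] at hN
    exact selnon_iso hp.prime hp.five hSK.iso (hO.selnon hN)
  · exact same_int hSK (hO.int ((nt_same hp.prime hp.five hSM).1 hT))
  · rw [cond_tw h, i1_lunit hSK, i1_lunit hSM]
    exact hO.lval ((nt_same hp.prime hp.five hSM).1 hT)
  · rw [cond_tw h] at hN
    exact same_non hSK (hO.annon ((nt_same hp.prime hp.five hSM).1 hT) hN)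
  · rw [i1_sel hp.prime hp.five hSM] at hT
    exact (nt_same hp.prime hp.five hSM).2 (hO.nt hT)

theorem tower_tw (h : TW F W W' Om m ψ kap e t u lam) (M K : Type) [Field M] [NumberField M] [Field K] [NumberField K]
    (ιM : M →ₐ[ℚ] AlgebraicClosure F) (ιK : K →ₐ[ℚ] AlgebraicClosure F) (hT : Tower F p W' M K ιM ιK) : Tower F p W M K ιM ιK :=
  ⟨hT.sub, hT.ext, (okm_tw h _).1 hT.ok⟩

end H35W
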