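import Mathlib
import Pool.Agent.Lib.H35W.Iso
import Pool.Agent.Lib.H35V.Abs

/-! # H35W: the base field ℚ -/

open NumberField IsDedekindDomain WeierstrassCurve

namespace H35W

open H55P (IQ embF eF LF Per IsHecke Pt ac Inert Dec Nm UnitP UnrP PExt RamF Ram)
open H55K H55K.TQ
open H13R (NoRel LUnitG i1_same i1_lunit)
open H28I (TW Same tw_prime tw_supp)
open H35U (NT nt_up nt_down nt_same)
open H55G (OkM lfun_tw okm_tw)
open H35V (kgq nt_card nt_K lq_aq bsd_tw)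

variable {F : Type} [Field F] [NumberField F] [IQ F] {W W' : WeierstrassCurve ℤ} {Om : ℂ}
    {m : Ideal (𝓞 F)} {ψ : Ideal (𝓞 F) →*₀ 𝓞 F} {p : ℕ}

theorem abs_of (hp : p.Prime) {K : Type} [Field K] [NumberField K] {ιQ : ℚ →ₐ[ℚ] AlgebraicClosure F} {ιK : K →ₐ[ℚ] AlgebraicClosure F}
    (hres : AnUnitG p W ℚ → BSDPG p W ℚ) (hlq : LUnitG p W ℚ → AnUnitG p W ℚ) (hO : Over F p W ℚ K ιQ ιK) (hQ : NT p W ℚ)
    (hK : NT p W K) : OverA F p W K ιQ ιK := by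
  have h1 : AnUnitG p W K → AnUnitG p W ℚ ∧ Cond F p W (KG F ℚ ιQ) (KG F K ιK) := by
    intro h
    have h2 := (H13R.an_iff hp (nt_card hp K hK h)).1 h
    obtain ⟨h3, h4⟩ := (hO.lval hQ).1 h2
    exact ⟨hlq h3, h4⟩
  have h2 : AnUnitG p W ℚ ∧ Cond F p W (KG F ℚ ιQ) (KG F K ιK) → BSDPG p W K := fun h => hO.bsd.2 ⟨hres h.1, h.2⟩
  exact ⟨hO.int hQ, ⟨h1, fun h => (h2 h).2⟩, fun h => h2 (h1 h), fun h => ⟨hO.annon hQ h, hO.selnon h⟩⟩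

theorem tower_Q (hH : BaseH F (W⁄(𝓞 F)) Om m ψ) (K : Type) [Field K] [NumberField K] (ιQ : ℚ →ₐ[ℚ] AlgebraicClosure F)
    (ιK : K →ₐ[ℚ] AlgebraicClosure F) (hT : TowerA F p K ιK) : Tower F p W ℚ K ιQ ιK := by
  have hG := kgq (F := F) ιQ
  obtain ⟨L, hLn, h1, h3⟩ := hT
  refine ⟨?_, ⟨L, hLn, ?_, h3⟩, ?_⟩
  · rw [hG]
    exact bot_le
  · rw [hG]
    exact h1
  · have hb := H13R.bad_unr hH (KG F ℚ ιQ) fun v _ => ramF_bot _ hG v
    exact fun w hw hg => absurd hg (hb w hw)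

/-- The theorem over ℚ, complex multiplication by the integers of F. -/
theorem main_A (hH : BaseH F (W⁄(𝓞 F)) Om m ψ) (hp : PrimeH F (W⁄(𝓞 F)) p) (K : Type) [Field K] [NumberField K]
    (ιQ : ℚ →ₐ[ℚ] AlgebraicClosure F) (ιK : K →ₐ[ℚ] AlgebraicClosure F) (hT : TowerA F p K ιK)
    (hM : Tower F p W ℚ K ιQ ιK → Over F p W ℚ K ιQ ιK) : OverA F p W K ιQ ιK := by
  have hM' := hM (tower_Q hH K ιQ ιK hT)
  obtain ⟨L, hLn, h1, h3⟩ := hT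
  have hQ : NT p W ℚ := by
    refine nt_K hH hp ℚ ιQ h1 ?_
    rw [kgq]
    exact bot_le
  exact abs_of hp.prime (main_Q hH hp ℚ (H28I.subUF_Q (F := F) hp)).2.1 (lq_aq hH hp) hM' hQ (nt_K hH hp K ιK h1 h3)

/-- The theorem over ℚ for isogenous curves. -/
theorem iso_A {kap : ℤ} {e t u lam : ℚ} (h : TW F W W' Om m ψ kap e t u lam) (hp' : PrimeH F (W'⁄(𝓞 F)) p) (K : Type) [Field K]
    [NumberField K] (ιQ : ℚ →ₐ[ℚ] AlgebraicClosure F) (ιK : K →ₐ[ℚ] AlgebraicClosure F) (hT : TowerA F p K ιK)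
    (hM : Tower F p W ℚ K ιQ ιK → Over F p W ℚ K ιQ ιK) : OverA F p W' K ιQ ιK := by
  classical
  have hp := (tw_prime h).1 hp'
  have hO := over_tw h hp' ℚ K ιQ ιK (hM (tower_Q h.base K ιQ ιK hT))
  obtain ⟨L, hLn, h1, h3⟩ := hT
  have hSQ := i1_same h hp ℚ (lfun_tw h ℚ)
  have hSK := i1_same h hp K (lfun_tw h K)
  have hQ : NT p W ℚ := by
    refine nt_K h.base hp ℚ ιQ h1 ?_
    rw [kgq]
    exact bot_le
  refine abs_of hp.prime (H28I.main_iso h hp' ℚ (H28I.subUF_Q (F := F) hp)).2.2.1 (fun hl => ?_) hO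
    ((nt_same hp.prime hp.five hSQ).2 hQ) ((nt_same hp.prime hp.five hSK).2 (nt_K h.base hp K ιK h1 h3))
  have ha := lq_aq h.base hp ((i1_lunit hSQ).1 hl)
  exact ((bsd_tw h hp' ℚ ιQ).2 ((main_Q h.base hp ℚ (H28I.subUF_Q (F := F) hp)).2.1 ha)).2

end H35W
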