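import Mathlib
import Pool.Agent.Lib.SSW.DD
import Pool.Agent.Lib.SSU.A4
import Pool.Agent.Lib.SSU.A7

/-! # H35W: trivial second ramification groups give D2F -/

open NumberField IsDedekindDomain

namespace H35W

open H55P (PExt UnrP s13_alg s13_galois finDim_of_le alg_tower pext_deg)
open SSR (G2 ex r8_main)
open SSU (G2F g2_types g2f_unr)

variable {F : Type} [Field F] [NumberField F] {Ω : Type} [Field Ω] [DecidableEq Ω] [Algebra F Ω] [IsAlgClosure F Ω]

/-- If the second ramification groups of L/M above p are trivial then D2F holds for every field between M and L. -/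
theorem d2_of_g2 {p : ℕ} (hp : p.Prime) {M K L : IntermediateField F Ω} [NumberField M] [NumberField K] (hL : PExt p M L)
    (hG : G2F p M L) (hMK : M ≤ K) (hKL : K ≤ L) : SSW.D2F p M K := by
  classical
  intro h
  letI iMK : Algebra M K := (IntermediateField.inclusion h).toRingHom.toAlgebra
  intro Q' hQp hpQ'
  have hac : IsAlgClosed Ω := IsAlgClosure.isAlgClosed F
  have hal : Algebra.IsAlgebraic F Ω := IsAlgClosure.isAlgebraic
  have hcz : CharZero Ω := charZero_of_injective_algebraMap (FaithfulSMul.algebraMap_injective F Ω)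
  have hLf : FiniteDimensional F L := hL.fin
  have hMf : FiniteDimensional F M := finDim_of_le (hMK.trans hKL)
  have hLn : NumberField L := H16C.FR_numberField L
  letI iKL : Algebra K L := s13_alg hKL
  letI iML : Algebra M L := s13_alg hL.le
  have t1 : IsScalarTower M K L := IsScalarTower.of_algebraMap_eq fun x => rfl
  have hgalL : IsGalois M L := s13_galois M L hL.le hL.norm
  have hdegL : ∃ k : ℕ, Module.finrank M L = p ^ k := by
    obtain ⟨k, hk⟩ := hL.deg
    have hstN : IsScalarTower F M L := IsScalarTower.of_algebraMap_eq fun x => rfl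
    have h1 : Module.finrank F M * Module.finrank M L = Module.finrank F L := Module.finrank_mul_finrank F M L
    rw [hk] at h1
    have hpos : 0 < Module.finrank F M := Module.finrank_pos
    exact ⟨k, Nat.eq_of_mul_eq_mul_left hpos h1⟩
  obtain ⟨k, hk⟩ := hdegL
  have hw0 : Q' ≠ ⊥ := by
    rintro rfl
    exact Nat.cast_ne_zero.2 hp.ne_zero (Ideal.mem_bot.1 hpQ')
  have hwm : Q'.IsMaximal := hQp.isMaximal hw0
  obtain ⟨Q, hQ1, hQ2⟩ := Ideal.exists_maximal_ideal_liesOver_of_isIntegral (S := 𝓞 L) Q'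
  have hQ0 : Q ≠ ⊥ := Ideal.ne_bot_of_liesOver_of_ne_bot hw0 Q
  have hover : Q.under (𝓞 K) = Q' := hQ2.over.symm
  have hpQ : (p : 𝓞 L) ∈ Q := by
    have h1 : (p : 𝓞 K) ∈ Q.under (𝓞 K) := by rw [hover]; exact hpQ'
    have h2 : algebraMap (𝓞 K) (𝓞 L) (p : 𝓞 K) ∈ Q := h1
    rwa [map_natCast] at h2
  have hG2 : G2 M Q := g2_types M M L le_rfl hL.le hG Q hQ1.isPrime hpQ
  exact r8_main (N := M) (M := K) (L := L) p hp k hk ⟨Q, hQ1.isPrime, hQ0⟩ hpQ hG2 ⟨Q', hQp, hw0⟩ hover

/-- p unramified in L. -/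
theorem d2_of_unr {p : ℕ} (hp : p.Prime) {M K L : IntermediateField F Ω} [NumberField M] [NumberField K] [NumberField L] (hL : PExt p M L)
    (hU : UnrP p L) (hMK : M ≤ K) (hKL : K ≤ L) : SSW.D2F p M K :=
  d2_of_g2 hp hL (g2f_unr hp M L hL.le hL.norm hU) hMK hKL

end H35W
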