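import Mathlib
import Pool.Agent.Lib.H35W.Abs
import Pool.Agent.Lib.H35W.G2D

/-! # H35W: the fields of the richness statements -/

open NumberField IsDedekindDomain WeierstrassCurve

namespace H35W

open H55P (IQ embF eF LF Per IsHecke Pt ac Inert Dec Nm UnitP UnrP PExt RamF Ram)
open H55K H55K.TQ
open H35V (kgq norel_bot)

variable {F : Type} [Field F] [NumberField F] [IQ F]

/-- If K satisfies InPF then it can be embedded such that TowerA and the condition on the ramification hold. -/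
theorem link (W : WeierstrassCurve ℤ) {p : ℕ} (hp : p.Prime) (K : Type) [Field K] [NumberField K] (h : InPF (W⁄(𝓞 F)) p K) :
    ∃ ιK : K →ₐ[ℚ] AlgebraicClosure F, TowerA F p K ιK ∧ ∀ ιQ : ℚ →ₐ[ℚ] AlgebraicClosure F, Cond F p W (KG F ℚ ιQ) (KG F K ιK) := by
  classical
  obtain ⟨Lt, _, _, _, _, hG, ⟨k, hk⟩, hU, hr⟩ := h
  obtain ⟨L, hLn, ι, hL, hU', hKL, hram⟩ := sub_setup (F := F) p hp K Lt hG k hk hU
  have hLf : FiniteDimensional F L := hL.fin
  have hKf : FiniteDimensional F (KG F K ι) := H55P.finDim_of_le hKL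
  have hKn : NumberField (KG F K ι) := H16C.FR_numberField _
  refine ⟨ι, ⟨L, hLn, hL, hKL⟩, fun ιQ => ?_⟩
  have hQ := kgq (F := F) ιQ
  have hL' : PExt p (KG F ℚ ιQ) L := by
    rw [hQ]
    exact hL
  have hQK : KG F ℚ ιQ ≤ KG F K ι := by
    rw [hQ]
    exact bot_le
  refine ⟨(norel_bot (W⁄(𝓞 F)) (KG F K ι) _ hQ).2 fun v hv hΔ hd => ?_, fun _ => d2_of_unr hp hL' hU' hQK hKL⟩
  obtain ⟨w, hw, he⟩ := hram v (ramF_up hKL v hv)
  exact he (hr w v hw hΔ hd)

end H35W
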