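import Mathlib
import Pool.Agent.Lib.H35W.D
import Pool.Agent.Lib.H35V.MainP
import Pool.Agent.Lib.SSW.W12
import Pool.Agent.Lib.SSW.WA5

/-! # H35W: THE RELATIVE THEOREM without conditions on the ramification -/

open NumberField IsDedekindDomain WeierstrassCurve

namespace H35W

open H55P (IQ embF eF LF Per IsHecke Pt ac Inert Dec Nm UnitP UnrP PExt PsiP)
open H55K H55K.TQ
open H35M (LVO LVOi NoTor)
open H13R (NoRel LUnitG)
open H35U (OverB NT NonSel nt_up nt_of selB_iff selB_rest bsdB_iff spl_of above_conj)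
open H55G (OkM ok_up)
open H28I (TW tw_prime)
open H35V (RelO relO_of lunit_iffO int_ofO non_ofO)

variable {F : Type} [Field F] [NumberField F] [IQ F] {W W' : WeierstrassCurve ℤ} {Om : ℂ}
    {m : Ideal (𝓞 F)} {ψ : Ideal (𝓞 F) →*₀ 𝓞 F} {p : ℕ}

/-- p split: only NoRel is left. -/
theorem cond_spl (h : ¬ (Ideal.span {(p : 𝓞 F)}).IsPrime) (M K : IntermediateField F (AlgebraicClosure F)) [NumberField M] [NumberField K] :
    Cond F p W M K ↔ NoRel p (W⁄(𝓞 F)) M K :=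
  ⟨fun hc => hc.rel, fun hc => ⟨hc, fun hi => absurd hi h⟩⟩

theorem cond_in (h : (Ideal.span {(p : 𝓞 F)}).IsPrime) (M K : IntermediateField F (AlgebraicClosure F)) [NumberField M] [NumberField K] :
    Cond F p W M K ↔ NoRel p (W⁄(𝓞 F)) M K ∧ SSW.D2F p M K :=
  ⟨fun hc => ⟨hc.rel, hc.dif h⟩, fun hc => ⟨hc.1, fun _ => hc.2⟩⟩

/-- The theorem for p inert in F. -/
theorem over_in (hH : BaseH F (W⁄(𝓞 F)) Om m ψ) (hp : PrimeH F (W⁄(𝓞 F)) p) (hin : (Ideal.span {(p : 𝓞 F)}).IsPrime) (M K : Type) [Field M]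
    [NumberField M] [Field K] [NumberField K] (ιM : M →ₐ[ℚ] AlgebraicClosure F) (ιK : K →ₐ[ℚ] AlgebraicClosure F)
    (hT : Tower F p W M K ιM ιK) : Over F p W M K ιM ιK := by
  classical
  obtain ⟨hMK, ⟨L, hLn, hL, hKL⟩, hB⟩ := hT
  have hp2 : p ≠ 2 := by
    have := hp.five
    omega
  have hRM : RelO p W Om ψ M ιM := relO_of hH hp M ιM hB
  have hRK : RelO p W Om ψ K ιK := relO_of hH hp K ιK (ok_up hH hp hL hMK hKL hB)
  have hTor : NT p W M → NoTor p (W⁄(𝓞 F)) (KG F M ιM) := fun h => nt_up hH hp.prime hp2 hp.unr M ιM h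
  have hIM : NT p W M → ∀ V : ValuationSubring ℂ, V.valuation (p : ℂ) < 1 → LVOi F V Om (PsiP (KG F M ιM) ψ) := fun h V hV =>
    SSU.intC hH hp hin hL le_rfl hL.le (hTor h) hV
  have hIK : NT p W M → ∀ V : ValuationSubring ℂ, V.valuation (p : ℂ) < 1 → LVOi F V Om (PsiP (KG F K ιK) ψ) := fun h V hV =>
    SSU.intC hH hp hin hL hMK hKL (hTor h) hV
  have hcr : NT p W M → ∀ V : ValuationSubring ℂ, V.valuation (p : ℂ) < 1 →
      (LVO F V Om (PsiP (KG F K ιK) ψ) ↔ LVO F V Om (PsiP (KG F M ιM) ψ) ∧ Cond F p W (KG F M ιM) (KG F K ιK)) := fun h V hV =>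
    (SSW.critW hH hp hin hL hMK hKL (hTor h) hV).trans (and_congr_right fun _ => (cond_in hin _ _).symm)
  have hlval : NT p W M → (LUnitG p W K ↔ LUnitG p W M ∧ Cond F p W (KG F M ιM) (KG F K ιK)) := by
    intro h
    rw [lunit_iffO hH hp K ιK hRK (hIK h), lunit_iffO hH hp M ιM hRM (hIM h)]
    obtain ⟨V₀, hV₀⟩ := H55P.exists_above_p p hp.prime
    constructor
    · intro h1
      exact ⟨fun V hV => ((hcr h V hV).1 (h1 V hV)).1, ((hcr h V₀ hV₀).1 (h1 V₀ hV₀)).2⟩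
    · rintro ⟨h1, h2⟩ V hV
      exact (hcr h V hV).2 ⟨h1 V hV, h2⟩
  have hnon : ¬ Cond F p W (KG F M ιM) (KG F K ιK) → H13Z.SelNonT (W⁄K) p := fun hN =>
    non_abs hH hp K ιK (SSW.nonselW hH hp hin hL hMK hKL fun h => hN ((cond_in hin _ _).2 h))
  have hsel : H55P.SelTriv (W⁄K) p ↔ H55P.SelTriv (W⁄M) p ∧ Cond F p W (KG F M ιM) (KG F K ιK) := by
    rw [selB_iff hH hp K ιK, selB_iff hH hp M ιM, cond_in hin]
    exact SSW.selW hH hp hin hL hMK hKL hB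
  refine ⟨hsel, ?_, hnon, fun h => int_ofO hH hp K ιK hRK (hIK h), hlval, fun h hN => ?_, nt_of hH hp M ιM⟩
  · rw [bsdB_iff hH hp K ιK, bsdB_iff hH hp M ιM]
    constructor
    · rintro ⟨h1, h2⟩
      obtain ⟨h3, h4⟩ := hsel.1 h1
      exact ⟨⟨h3, ((hlval (nt_of hH hp M ιM (Or.inr h3))).1 h2).1⟩, h4⟩
    · rintro ⟨⟨h1, h2⟩, h3⟩
      exact ⟨hsel.2 ⟨h1, h3⟩, (hlval (nt_of hH hp M ιM (Or.inr h1))).2 ⟨h2, h3⟩⟩
  · exact non_ofO hH hp K ιK hRK (hIK h) fun V hV h1 => hN ((hcr h V hV).1 h1.1).2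

/-- THE RELATIVE THEOREM. -/
theorem main_W (hH : BaseH F (W⁄(𝓞 F)) Om m ψ) (hp : PrimeH F (W⁄(𝓞 F)) p) (M K : Type) [Field M]
    [NumberField M] [Field K] [NumberField K] (ιM : M →ₐ[ℚ] AlgebraicClosure F) (ιK : K →ₐ[ℚ] AlgebraicClosure F)
    (hT : Tower F p W M K ιM ιK) : Over F p W M K ιM ιK := by
  classical
  by_cases hI : (Ideal.span {(p : 𝓞 F)}).IsPrime
  · exact over_in hH hp hI M K ιM ιK hT
  · obtain ⟨hMK, ⟨L, hLn, hL, hKL⟩, hB⟩ := hT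
    have hO := H35V.over_splitO hH hp (spl_of hp hI) M K ιM ιK hL hMK hKL hB
    have hc := cond_spl (W := W) hI (KG F M ιM) (KG F K ιK)
    refine ⟨?_, ?_, ?_, hO.int, ?_, ?_, hO.nt⟩
    · rw [hc]
      exact hO.sel
    · rw [hc]
      exact hO.bsd
    · rw [hc]
      exact hO.selnon
    · rw [hc]
      exact hO.lval
    · rw [hc]
      exact hO.annon

end H35W
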