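import Mathlib
import Pool.Agent.Lib.H35W.Main
import Pool.Agent.Lib.H35W.Link
import Pool.Agent.Lib.H35V.AlmostO
import Pool.Agent.Lib.H28T.XMain
import Pool.Agent.Lib.H28I.A1
import Pool.Agent.Lib.H13R.K1
import Pool.Agent.Lib.H55W.Main
import Pool.Agent.Lib.H55W.PR
import Pool.Agent.Lib.H55W.EZM
import Pool.Agent.Lib.H55Y.Y5
import Pool.Agent.Lib.H55Y.Y6
import Pool.Agent.Lib.H55W.C4
import Pool.Agent.Lib.H55K.EX2
import Pool.Agent.Lib.H55K.FC2
import Pool.Agent.Lib.H55K.FC3

/-!
# The p-part of the Birch and Swinnerton-Dyer conjecture for the elliptic curves with complex multiplication in p-extensions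

F is an imaginary quadratic field of class number one, E an elliptic curve over the rationals with complex multiplication (over F)
by an order of F, given by a global minimal equation W (CM F W; all 13 orders of class number one).
p ≥ 5 is a prime number of good reduction: it does not divide the discriminant of W.

THE RELATIVE THEOREM (rel, Tower, Over). M and K are number fields, FM and FK the fields generated by F and M, F and K in the algebraic
closure of F. FM is contained in FK and FK is contained in a Galois extension L of FM of degree a power of p, abelian or not (L/ℚ need not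
be Galois, the degree of M is arbitrary). THERE IS NO HYPOTHESIS ON THE RAMIFICATION OF K/M. OkM: at the primes of FM which divide the
discriminant of W and at which W has good reduction over FM, p does not divide the number of points of the reduction of a minimal equation;
for given M this is true for all but finitely many p (ok), and for all p if the primes dividing the discriminant are unramified in FM (unr).
Cond (K/M): no prime v of FM which does not divide the discriminant and where p divides the number of points of W over the residue field is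
ramified in FK (NoRel; primes v above p are included), and if p is inert in F then at every prime Q of FK above p, of ramification index e
over FM, the exponent of Q in the different of FK over FM is 2(e - 1) (D2F; for a Galois extension FK/FM: the second ramification groups in
the lower numbering are trivial).
LUnitG p W K: the L-series of W over K (Mathlib: WeierstrassCurve.LSeries) converges absolutely for Re s > 3/2, continues to Re s > 1/2,
does not vanish at s = 1, and the algebraic part lG of the value at 1 is a p-adic unit. NT: W has no point of order p over M.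
(sel) The p-Selmer group over K is trivial if and only if it is trivial over M and Cond holds. (bsd) The same for the rank part and the
p-part of the refined conjecture in analytic rank 0 with trivial p-Selmer group. (selnon) If Cond does not hold, the classical p-Selmer group
over K is not zero. If NT holds: (int) L(W/K, s) converges absolutely for Re s > 3/2 and continues to Re s > 1/2, and the algebraic part of
the value at 1 is integral above p; (lval) LUnitG holds over K if and only if it holds over M and Cond holds; (annon) if Cond does not hold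
then the algebraic part of the L-value over K is divisible by all primes above p. (nt) NT holds if p is unramified in FM or if the p-Selmer
group over M is trivial. If L(W/M, 1) is not zero, then LUnitG p W M is true for all but finitely many primes p (gen).

THE ABSOLUTE THEOREM (abs, TowerA, OverA), M = ℚ. AnUnitG p W K (the analytic part): as LUnitG, with the analytic order of the
Tate-Shafarevich group (shaG: the number predicted by the refined conjecture) in the place of lG. (crit) The analytic part holds over K
if and only if it holds over the rationals and Cond (K/ℚ) holds. (bsd) The analytic part over K implies that the p-Selmer group and the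
p-torsion of the Tate-Shafarevich group over K are zero and that W(K) is finite of order prime to p: the rank part and the p-part of the
refined conjecture hold over K. (non) If Cond does not hold, the algebraic part of the L-value is divisible by all primes above p and the
classical p-Selmer group is not zero. If L(W/ℚ, 1) is not zero, the analytic part over the rationals is true for all but finitely many primes
p (rat); for y^2 + y = x^3 it is true for all p ≥ 5.

(rich), (real), (link): for all F, W, p, the class of the fields K for which TowerA and Cond (K/ℚ) hold (with p unramified in L) is large.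
-/

open NumberField IsDedekindDomain WeierstrassCurve H55P H55K.TQ

namespace H35W

/-- W is a global minimal equation of an elliptic curve over the rationals with complex multiplication by the order of conductor f of F,
of class number one (H55Y.Cond): its period lattice is a multiple of the lattice of this order. -/
def CM (F : Type) [Field F] [NumberField F] [IQ F] (W : WeierstrassCurve ℤ) : Prop :=
  W.Δ ≠ 0 ∧ H13D.MinZ W ∧ ∃ (f : ℕ) (Om : ℂ), H55Y.Cond F f ∧
    H55Y.PerO F f (-(eF F (W⁄(𝓞 F)).c₄) / 48) (-(eF F (W⁄(𝓞 F)).c₆) / 864) Om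

/-- The conclusions for the prime p. -/
structure AtP (F : Type) [Field F] [NumberField F] [IQ F] (p : ℕ) (W : WeierstrassCurve ℤ) : Prop where
  rel : ∀ (M K : Type) [Field M] [NumberField M] [Field K] [NumberField K] (ιM : M →ₐ[ℚ] AlgebraicClosure F)
    (ιK : K →ₐ[ℚ] AlgebraicClosure F), Tower F p W M K ιM ιK → Over F p W M K ιM ιK
  abs : ∀ (K : Type) [Field K] [NumberField K] (ιQ : ℚ →ₐ[ℚ] AlgebraicClosure F) (ιK : K →ₐ[ℚ] AlgebraicClosure F), TowerA F p K ιK →
    OverA F p W K ιQ ιK
  link : ∀ (K : Type) [Field K] [NumberField K], InPF (W⁄(𝓞 F)) p K → ∃ ιK : K →ₐ[ℚ] AlgebraicClosure F,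
    TowerA F p K ιK ∧ ∀ ιQ : ℚ →ₐ[ℚ] AlgebraicClosure F, Cond F p W (KG F ℚ ιQ) (KG F K ιK)
  rich : H28T.Rich (W⁄(𝓞 F)) p
  real : ∀ (H : Type) [Group H] [Finite H] (k : ℕ), Nat.card H = p ^ k → H28T.RealG (W⁄(𝓞 F)) p H

/-- The conclusions for all p together. -/
structure Almost (F : Type) [Field F] [NumberField F] [IQ F] (W : WeierstrassCurve ℤ) : Prop where
  rat : LNz W ℚ → {p : ℕ | p.Prime ∧ ¬ AnUnitG p W ℚ}.Finite
  gen : ∀ (M : Type) [Field M] [NumberField M] (_ : M →ₐ[ℚ] AlgebraicClosure F), LNz W M → {p : ℕ | p.Prime ∧ ¬ H13R.LUnitG p W M}.Finite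
  ok : ∀ (M : Type) [Field M] [NumberField M] (ιM : M →ₐ[ℚ] AlgebraicClosure F),
    {p : ℕ | p.Prime ∧ ¬ H55G.OkM p (W⁄(𝓞 F)) (KG F M ιM)}.Finite
  unr : ∀ (M : Type) [Field M] [NumberField M] (ιM : M →ₐ[ℚ] AlgebraicClosure F),
    (∀ v : HeightOneSpectrum (𝓞 F), (W⁄(𝓞 F)).Δ ∈ v.asIdeal → ¬ RamF (KG F M ιM) v.asIdeal) →
      ∀ p : ℕ, H55G.OkM p (W⁄(𝓞 F)) (KG F M ιM)

theorem result :
    (∀ (F : Type) [Field F] [NumberField F] [IQ F] (W : WeierstrassCurve ℤ), CM F W →
      (∀ p : ℕ, p.Prime → 5 ≤ p → ¬ (p : ℤ) ∣ W.Δ → AtP F p W) ∧ Almost F W) ∧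
    CM H55B.F EZ ∧ ∀ p : ℕ, p.Prime → 5 ≤ p → AnUnitG p EZ ℚ := by
  have hcub : ∀ (F : Type) [Field F] [NumberField F] [IQ F], ∀ w : 𝓞 F, w ^ 2 + w + 1 = 0 → ∀ n : ℤ, n ≠ 0 →
      ∃ κ : 𝓞 F → 𝓞 F, H55W.PRC (𝓞 F) 3 n (3 * n) (27 * n) κ := fun F _ _ _ w hw n hn => H55W.cub_F F IQ.deg w hw n hn
  refine ⟨fun F _ _ _ W' hC => ?_, ⟨by rw [H55W.ezm_disc]; norm_num, H55W.ezm_min, ?_⟩, fun p hp h5 => H55K.TQ.ex_an hp h5⟩
  · rcases H55Y.y5_cases hC (hcub F) with ⟨Om, hper⟩ | ⟨W, Om, m, ψ, kap, e, t, u, lam, hΔ, hper, h⟩
    · obtain ⟨hΔ, hmin, -⟩ := hC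
      obtain ⟨ψ, hH⟩ := H55W.base_all0 (hcub F) W' Om hΔ hper hmin
      refine ⟨fun p hp h5 hd => ?_, fun hL => ?_, fun M _ _ ιM hL => H55G.lunit_almostE hH M ιM hL,
        fun M _ _ ιM => H35V.okm_almost hH _, fun M _ _ ιM hU p => H35V.okm_unr hH _ hU⟩
      · have hP := H55W.prime_simple hΔ hper hp h5 hd
        have hR : ∀ (M K : Type) [Field M] [NumberField M] [Field K] [NumberField K] (ιM : M →ₐ[ℚ] AlgebraicClosure F)
            (ιK : K →ₐ[ℚ] AlgebraicClosure F), Tower F p W' M K ιM ιK → Over F p W' M K ιM ιK :=
          fun M K _ _ _ _ ιM ιK hT => main_W hH hP M K ιM ιK hT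
        exact ⟨hR, fun K _ _ ιQ ιK hT => main_A hH hP K ιQ ιK hT fun hO => hR ℚ K ιQ ιK hO, fun K _ _ hK => link _ hp K hK,
          H28T.rich_of hH hP, fun H _ _ k hk => H28T.real_Q hH hP H k hk⟩
      · refine ((prime_almost (W'⁄(𝓞 F)) hH.data.ell).union (an_almost hH hL)).subset fun p hp => ?_
        obtain ⟨h1, h2⟩ := hp
        by_cases h3 : PrimeH F (W'⁄(𝓞 F)) p
        · exact Or.inr ⟨h1, fun h4 => h2 h4⟩
        · exact Or.inl ⟨h1, h3⟩
    · refine ⟨fun p hp h5 hd => ?_, fun hL => ?_, fun M _ _ ιM hL => H55G.lunit_almost_isoE h M ιM hL,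
        fun M _ _ ιM => H35V.okm_almost_iso h _, fun M _ _ ιM hU p => H35V.okm_unr_iso h _ hU⟩
      · have hP0 := H55W.prime_simple hΔ hper hp h5 fun h' => hd (H55Y.y6_dvd h hp h')
        have hP := (H28I.tw_prime h).2 hP0
        have hR : ∀ (M K : Type) [Field M] [NumberField M] [Field K] [NumberField K] (ιM : M →ₐ[ℚ] AlgebraicClosure F)
            (ιK : K →ₐ[ℚ] AlgebraicClosure F), Tower F p W M K ιM ιK → Over F p W M K ιM ιK :=
          fun M K _ _ _ _ ιM ιK hT => main_W h.base hP0 M K ιM ιK hT
        obtain ⟨r1, r2⟩ := H28I.rich_iso h hP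
        exact ⟨fun M K _ _ _ _ ιM ιK hT => over_tw h hP M K ιM ιK (hR M K ιM ιK (tower_tw h M K ιM ιK hT)),
          fun K _ _ ιQ ιK hT => iso_A h hP K ιQ ιK hT fun hO => hR ℚ K ιQ ιK hO, fun K _ _ hK => link _ hp K hK, r1,
          fun H _ _ k hk => r2 H k hk⟩
      · exact (H28I.almost_iso h hL).subset fun p hp => ⟨hp.1, fun h4 => hp.2 h4.2⟩
  · obtain ⟨Om, hper⟩ := H55W.ezm_per
    refine ⟨1, Om, Or.inl rfl, hper.ne, LF H55B.F, fun z => ?_, hper.g2, hper.g3⟩
    rw [H55P.mem_LF]
    constructor
    · rintro ⟨y, rfl⟩
      exact ⟨0, y, by rw [Int.cast_zero, zero_add, Nat.cast_one, one_mul]⟩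
    · rintro ⟨a, y, rfl⟩
      exact ⟨(a : 𝓞 H55B.F) + y, by rw [map_add, map_intCast, Nat.cast_one, one_mul]⟩

end H35W
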